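import Pool.Agent.X62.TP.Basic

/-!
# Partitions of the vertex set and of the edge set of a graph into trees

For every `n ≥ 3` the maximum of `τ'(G) / (τ(G) n)` over all connected graphs `G` with `n` vertices
is `⌈n / 2⌉ / (2 n)`, so `c₂ = 1 / 4`. The maximum is attained by the friendship graphs.
-/

open Finset Filter Topology

namespace Pool.Agent.Results.MP_8bd6c4_co.TreePartitionRatio

/-- `E(G)` is the disjoint union of the edge sets of `k` subgraphs of `G` which are trees. -/
def EdgeTreePartition {V : Type} (G : SimpleGraph V) (k : ℕ) : Prop :=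
  ∃ H : Fin k → G.Subgraph, (∀ i, (H i).coe.IsTree) ∧ ∀ e ∈ G.edgeSet, ∃! i, e ∈ (H i).edgeSet

/-- `τ(G)` -/
noncomputable def tau {V : Type} (G : SimpleGraph V) : ℕ := sInf {k | EdgeTreePartition G k}

/-- `V(G)` can be partitioned into `k` sets each of which induces a tree. -/
def VertexTreePartition {V : Type} (G : SimpleGraph V) (k : ℕ) : Prop :=
  ∃ f : V → Fin k, ∀ i, (G.induce {v | f v = i}).IsTree

/-- `τ'(G)` -/
noncomputable def tau' {V : Type} (G : SimpleGraph V) : ℕ := sInf {k | VertexTreePartition G k}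

/-- The maximum of `τ'(G) / (τ(G) n)` over the connected graphs `G` with `n` vertices and at least one
edge. -/
noncomputable def maxRatio (n : ℕ) : ℝ :=
  sSup {x | ∃ G : SimpleGraph (Fin n), G.Connected ∧ G.edgeSet.Nonempty ∧
    x = (tau' G : ℝ) / (tau G * n)}

open Pool.Agent.X62 in
theorem vertexTreePartition_of_treePart {V : Type} [Fintype V] [DecidableEq V]
    (G : SimpleGraph V) (P : Finset (Finset V)) (hP : TP.TreePart G univ P) :
    VertexTreePartition G P.card := by
  obtain ⟨h1, h2, h3⟩ := hP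
  choose A hA hvA using fun v => h3 v (mem_univ v)
  let e := P.equivFin
  refine ⟨fun v => e ⟨A v, hA v⟩, ?_⟩
  intro i
  have hset : {v | e ⟨A v, hA v⟩ = i} = (((e.symm i).1 : Finset V) : Set V) := by
    ext v
    simp only [Set.mem_ofPred_eq, mem_coe]
    constructor
    · rintro rfl
      rw [Equiv.symm_apply_apply]
      exact hvA v
    · intro hv
      have : A v = (e.symm i).1 := by
        by_contra hne
        exact (Finset.disjoint_left.1 (h2 _ (hA v) _ (e.symm i).2 hne)) (hvA v) hv
      have h4 : (⟨A v, hA v⟩ : P) = e.symm i := Subtype.ext this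
      rw [h4, Equiv.apply_symm_apply]
  rw [hset]
  exact (h1 _ (e.symm i).2).2

open Pool.Agent.X62 in
theorem tau'_le {n : ℕ} (G : SimpleGraph (Fin n)) (hG : G.Connected) :
    tau' G ≤ (n + 1) / 2 ∧ VertexTreePartition G (tau' G) := by
  have h0 : (G.induce ((univ : Finset (Fin n)) : Set (Fin n))).Connected := by
    rw [Finset.coe_univ]
    exact (SimpleGraph.induceUnivIso G).connected_iff.2 hG
  obtain ⟨P, hP, hPc⟩ := TP.exists_treePart G n univ (by simp) h0
  have h1 := vertexTreePartition_of_treePart G P hP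
  rw [Finset.card_univ, Fintype.card_fin] at hPc
  constructor
  · have : tau' G ≤ P.card := Nat.sInf_le h1
    omega
  · exact Nat.sInf_mem (s := {k | VertexTreePartition G k}) ⟨_, h1⟩

theorem isTree_of_one {V : Type} (G : SimpleGraph V) (hG : G.Connected)
    (hE : G.edgeSet.Nonempty) (h : EdgeTreePartition G 1) : G.IsTree := by
  obtain ⟨H, h1, h2⟩ := h
  have hadj : ∀ u v, G.Adj u v → (H 0).Adj u v := by
    intro u v huv
    obtain ⟨i, hi, -⟩ := h2 s(u, v) huv
    rw [Subsingleton.elim i 0] at hi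
    exact hi
  obtain ⟨e, he⟩ := hE
  have hnt : ∀ v, ∃ w, G.Adj v w := by
    induction e using Sym2.ind with
    | _ a b =>
      have hab : G.Adj a b := he
      intro v
      by_cases hva : v = a
      · exact ⟨b, hva ▸ hab⟩
      · obtain ⟨q⟩ := hG.preconnected v a
        obtain ⟨w, h, _, _⟩ := q.exists_eq_cons_of_ne hva
        exact ⟨w, h⟩
  have htop : H 0 = ⊤ := by
    ext u v
    · simp only [SimpleGraph.Subgraph.verts_top, Set.mem_univ, iff_true]
      obtain ⟨w, hw⟩ := hnt u
      exact (H 0).edge_vert (hadj u w hw)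
    · exact ⟨fun h => (H 0).adj_sub h, fun h => hadj u v h⟩
  have := h1 0
  rw [htop] at this
  exact SimpleGraph.Subgraph.topIso.isTree_iff.1 this

theorem ratio_le {n : ℕ} (hn : 3 ≤ n) (G : SimpleGraph (Fin n)) (hG : G.Connected)
    (hE : G.edgeSet.Nonempty) :
    (tau' G : ℝ) / (tau G * n) ≤ (((n + 1) / 2 : ℕ) : ℝ) / (2 * n) := by
  obtain ⟨h1, h2⟩ := tau'_le G hG
  have hn0 : (0 : ℝ) < n := by
    have : 0 < n := by omega
    exact_mod_cast this
  have h1' : (tau' G : ℝ) ≤ (((n + 1) / 2 : ℕ) : ℝ) := by exact_mod_cast h1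
  rcases Nat.lt_or_ge (tau G) 2 with h3 | h3
  · have : tau G = 0 ∨ tau G = 1 := by omega
    rcases this with h4 | h4
    · rw [h4]
      simp only [Nat.cast_zero, zero_mul, div_zero]
      positivity
    · have hmem : EdgeTreePartition G 1 := by
        have hne : {k | EdgeTreePartition G k}.Nonempty := by
          by_contra hcon
          rw [Set.not_nonempty_iff_eq_empty] at hcon
          have : tau G = 0 := by
            unfold tau
            rw [hcon, Nat.sInf_empty]
          omega
        have := Nat.sInf_mem hne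
        have h5 : sInf {k | EdgeTreePartition G k} = 1 := h4
        rw [h5] at this
        exact this
      have htree := isTree_of_one G hG hE hmem
      have h6 : VertexTreePartition G 1 := by
        refine ⟨fun _ => 0, ?_⟩
        intro i
        have : {v : Fin n | (0 : Fin 1) = i} = Set.univ := by
          ext v
          simp [Subsingleton.elim i 0]
        rw [this]
        exact (SimpleGraph.induceUnivIso G).isTree_iff.2 htree
      have h7 : tau' G ≤ 1 := Nat.sInf_le h6
      have h7' : (tau' G : ℝ) ≤ 1 := by exact_mod_cast h7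
      rw [h4, Nat.cast_one, one_mul, div_le_div_iff₀ hn0 (by positivity)]
      have h8 : 2 ≤ (n + 1) / 2 := by omega
      have h8' : (2 : ℝ) ≤ (((n + 1) / 2 : ℕ) : ℝ) := by exact_mod_cast h8
      nlinarith
  · have h3' : (2 : ℝ) ≤ tau G := by exact_mod_cast h3
    apply div_le_div₀ (Nat.cast_nonneg _) h1' (by positivity)
    exact mul_le_mul_of_nonneg_right h3' hn0.le

/-! ### The friendship graphs -/

/-- Triangles `{0, 2 a + 1, 2 a + 2}` with a common vertex (and a pendant edge if `n` is even). -/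
def friend (n : ℕ) : SimpleGraph (Fin n) where
  Adj u v := u ≠ v ∧ (u.val = 0 ∨ v.val = 0 ∨ (u.val - 1) / 2 = (v.val - 1) / 2)
  symm := ⟨fun u v h => ⟨h.1.symm, by tauto⟩⟩
  loopless := ⟨fun u h => h.1 rfl⟩

theorem friend_adj {n : ℕ} {u v : Fin n} : (friend n).Adj u v ↔
    u ≠ v ∧ (u.val = 0 ∨ v.val = 0 ∨ (u.val - 1) / 2 = (v.val - 1) / 2) := Iff.rfl

/-- parents in the second tree -/
def par2 {n : ℕ} (v : Fin n) : Fin n :=
  ⟨if v.val % 2 = 1 then 0 else v.val - 1, by have := v.isLt; split_ifs <;> omega⟩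

/-- the first tree: a star -/
def T1 (n : ℕ) : (friend n).Subgraph where
  verts := {v | v.val % 2 = 0}
  Adj u v := (u.val = 0 ∧ v.val ≠ 0 ∧ v.val % 2 = 0) ∨ (v.val = 0 ∧ u.val ≠ 0 ∧ u.val % 2 = 0)
  adj_sub := by
    rintro u v (⟨h1, h2, -⟩ | ⟨h1, h2, -⟩)
    · exact ⟨fun h => h2 (h ▸ h1), Or.inl h1⟩
    · exact ⟨fun h => h2 (h ▸ h1), Or.inr (Or.inl h1)⟩
  edge_vert := by
    rintro u v (⟨h1, -, -⟩ | ⟨-, -, h1⟩)
    · simp [h1]
    · exact h1
  symm := ⟨by
    rintro u v (h | h)
    · exact Or.inr h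
    · exact Or.inl h⟩

/-- the second tree: a spider -/
def T2 (n : ℕ) : (friend n).Subgraph where
  verts := Set.univ
  Adj u v := (u.val ≠ 0 ∧ par2 u = v) ∨ (v.val ≠ 0 ∧ par2 v = u)
  adj_sub := by
    rintro u v (⟨h1, h2⟩ | ⟨h1, h2⟩)
    · subst h2
      refine ⟨fun h => ?_, ?_⟩
      · have := congrArg Fin.val h
        unfold par2 at this
        simp only at this
        split_ifs at this <;> omega
      · unfold par2
        simp only
        split_ifs <;> omega
    · subst h2
      refine ⟨fun h => ?_, ?_⟩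
      · have := congrArg Fin.val h
        unfold par2 at this
        simp only at this
        split_ifs at this <;> omega
      · unfold par2
        simp only
        split_ifs <;> omega
  edge_vert := fun _ => Set.mem_univ _
  symm := ⟨by
    rintro u v (h | h)
    · exact Or.inr h
    · exact Or.inl h⟩

theorem T1_tree {n : ℕ} (hn : 0 < n) : (T1 n).coe.IsTree := by
  have h0 : (⟨0, hn⟩ : Fin n) ∈ (T1 n).verts := rfl
  apply Pool.Agent.X62.TP.isTree_of_parent (⟨⟨0, hn⟩, h0⟩ : (T1 n).verts)
    (fun _ => ⟨⟨0, hn⟩, h0⟩) (fun v => v.1.val)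
  · intro v hv
    have : v.1.val ≠ 0 := fun h => hv (Subtype.ext (Fin.ext h))
    show (0 : ℕ) < v.1.val
    omega
  · rintro ⟨u, hu⟩ ⟨v, hv⟩
    have hu' : u.val % 2 = 0 := hu
    have hv' : v.val % 2 = 0 := hv
    rw [SimpleGraph.Subgraph.coe_adj]
    show ((u.val = 0 ∧ v.val ≠ 0 ∧ v.val % 2 = 0) ∨ (v.val = 0 ∧ u.val ≠ 0 ∧ u.val % 2 = 0)) ↔ _
    simp only [ne_eq, Subtype.mk.injEq, Fin.ext_iff, hu', hv', and_true]
    tauto

theorem T2_tree {n : ℕ} (hn : 0 < n) : (T2 n).coe.IsTree := by
  have h0 : (⟨0, hn⟩ : Fin n) ∈ (T2 n).verts := Set.mem_univ _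
  apply Pool.Agent.X62.TP.isTree_of_parent (⟨⟨0, hn⟩, h0⟩ : (T2 n).verts)
    (fun v => ⟨par2 v.1, Set.mem_univ _⟩) (fun v => v.1.val)
  · intro v hv
    have : v.1.val ≠ 0 := fun h => hv (Subtype.ext (Fin.ext h))
    show (par2 v.1).val < v.1.val
    unfold par2
    simp only
    split_ifs <;> omega
  · rintro ⟨u, hu⟩ ⟨v, hv⟩
    rw [SimpleGraph.Subgraph.coe_adj]
    show ((u.val ≠ 0 ∧ par2 u = v) ∨ (v.val ≠ 0 ∧ par2 v = u)) ↔ _
    simp [Subtype.ext_iff, Fin.ext_iff]

theorem friend_edge {n : ℕ} (hn : 0 < n) : EdgeTreePartition (friend n) 2 := by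
  refine ⟨![T1 n, T2 n], ?_, ?_⟩
  · intro i
    fin_cases i
    · exact T1_tree hn
    · exact T2_tree hn
  · intro e he
    induction e using Sym2.ind with
    | _ u v =>
      have huv : u ≠ v ∧ (u.val = 0 ∨ v.val = 0 ∨ (u.val - 1) / 2 = (v.val - 1) / 2) := he
      have hne : u.val ≠ v.val := fun h => huv.1 (Fin.ext h)
      have t1 : s(u, v) ∈ (T1 n).edgeSet ↔ (u.val = 0 ∧ v.val ≠ 0 ∧ v.val % 2 = 0) ∨
          (v.val = 0 ∧ u.val ≠ 0 ∧ u.val % 2 = 0) := Iff.rfl
      have t2 : s(u, v) ∈ (T2 n).edgeSet ↔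
          (u.val ≠ 0 ∧ (par2 u).val = v.val) ∨ (v.val ≠ 0 ∧ (par2 v).val = u.val) := by
        rw [← Fin.ext_iff, ← Fin.ext_iff]; exact Iff.rfl
      by_cases h : (u.val = 0 ∧ v.val ≠ 0 ∧ v.val % 2 = 0) ∨
          (v.val = 0 ∧ u.val ≠ 0 ∧ u.val % 2 = 0)
      · refine ⟨0, t1.2 h, ?_⟩
        intro i hi
        fin_cases i
        · rfl
        · exfalso
          have h2 := t2.1 hi
          unfold par2 at h2
          simp only at h2
          rcases h with h | h <;> rcases h2 with h2 | h2 <;> obtain ⟨h3, h4⟩ := h2 <;>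
            split_ifs at h4 <;> omega
      · refine ⟨1, ?_, ?_⟩
        · show s(u, v) ∈ (T2 n).edgeSet
          rw [t2]
          unfold par2
          simp only
          obtain ⟨-, h3⟩ := huv
          split_ifs <;> omega
        · intro i hi
          fin_cases i
          · exact (h (t1.1 hi)).elim
          · rfl

theorem friend_conn {n : ℕ} (hn : 0 < n) : (friend n).Connected := by
  rw [SimpleGraph.connected_iff]
  have key : ∀ v : Fin n, (friend n).Reachable v ⟨0, hn⟩ := by
    intro v
    by_cases hv : v = ⟨0, hn⟩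
    · rw [hv]
    · exact SimpleGraph.Adj.reachable ⟨hv, Or.inr (Or.inl rfl)⟩
  exact ⟨fun a b => (key a).trans (key b).symm, ⟨⟨0, hn⟩⟩⟩

theorem friend_lower {n k : ℕ} (hn : 3 ≤ n) (h : VertexTreePartition (friend n) k) :
    (n + 1) / 2 ≤ k := by
  obtain ⟨f, hf⟩ := h
  set z : Fin n := ⟨0, by omega⟩ with hz
  -- a vertex of each triangle outside of the part of the hub
  have hx : ∀ a : Fin ((n - 1) / 2), ∃ x : Fin n, f x ≠ f z ∧ x.val ≠ 0 ∧
      (x.val - 1) / 2 = a.val := by
    intro a
    have ha := a.isLt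
    by_contra hcon
    push Not at hcon
    set u : Fin n := ⟨2 * a.val + 1, by omega⟩ with hu
    set v : Fin n := ⟨2 * a.val + 2, by omega⟩ with hv
    have h1 : f u = f z := by
      by_contra hne
      exact hcon u hne (by simp [hu]) (by simp only [hu]; omega)
    have h2 : f v = f z := by
      by_contra hne
      exact hcon v hne (by simp [hv]) (by simp only [hv]; omega)
    have h3 := (hf (f z)).isAcyclic.cliqueFree le_rfl
      {(⟨z, rfl⟩ : {w | f w = f z}), ⟨u, h1⟩, ⟨v, h2⟩}
    apply h3
    rw [SimpleGraph.is3Clique_triple_iff]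
    refine ⟨?_, ?_, ?_⟩
    · show (friend n).Adj z u
      exact ⟨fun h => by have := congrArg Fin.val h; simp [hz, hu] at this, Or.inl rfl⟩
    · show (friend n).Adj z v
      exact ⟨fun h => by have := congrArg Fin.val h; simp [hz, hv] at this, Or.inl rfl⟩
    · show (friend n).Adj u v
      refine ⟨fun h => by have := congrArg Fin.val h; simp [hu, hv] at this, Or.inr (Or.inr ?_)⟩
      simp only [hu, hv]
      omega
  choose x hx1 hx2 hx3 using hx
  -- different triangles give different parts
  have hinj : ∀ a b, f (x a) = f (x b) → a = b := by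
    intro a b hab
    have hconn := (hf (f (x a))).connected
    have hreach := hconn.preconnected ⟨x a, rfl⟩ ⟨x b, hab.symm⟩
    obtain ⟨q⟩ := hreach
    have key : ∀ (u v : {w | f w = f (x a)}) (q : ((friend n).induce {w | f w = f (x a)}).Walk u v),
        (u.1.val - 1) / 2 = (v.1.val - 1) / 2 := by
      intro u v q
      induction q with
      | nil => rfl
      | @cons u w v h q ih =>
        rw [← ih]
        have h' : (friend n).Adj u.1 w.1 := h
        have hu : u.1.val ≠ 0 := by
          intro h0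
          have h1 : u.1 = z := Fin.ext h0
          have h2 : f u.1 = f (x a) := u.2
          rw [h1] at h2
          exact hx1 a h2.symm
        have hw : w.1.val ≠ 0 := by
          intro h0
          have h1 : w.1 = z := Fin.ext h0
          have h2 : f w.1 = f (x a) := w.2
          rw [h1] at h2
          exact hx1 a h2.symm
        rcases h'.2 with h1 | h1 | h1
        · exact (hu h1).elim
        · exact (hw h1).elim
        · exact h1
    have h1 := key _ _ q
    simp only at h1
    rw [hx3, hx3] at h1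
    exact Fin.ext h1
  let g : Option (Fin ((n - 1) / 2)) → Fin k := fun o =>
    match o with
    | none => f z
    | some a => f (x a)
  have hg : Function.Injective g := by
    rintro (_ | a) (_ | b) h
    · rfl
    · exact (hx1 b h.symm).elim
    · exact (hx1 a h).elim
    · rw [hinj a b h]
  have := Fintype.card_le_of_injective g hg
  simp only [Fintype.card_option, Fintype.card_fin] at this
  omega

/-- **Theorem.** For every `n ≥ 3` the maximum of `τ'(G) / (τ(G) v(G))` over the connected graphs `G`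
with `n` vertices is `⌈n / 2⌉ / (2 n)`, and `c₂ = 1 / 4`. -/
theorem result :
    (∀ n : ℕ, 3 ≤ n → maxRatio n = (((n + 1) / 2 : ℕ) : ℝ) / (2 * n)) ∧
    Filter.limsup maxRatio atTop = 1 / 4 := by
  have hmain : ∀ n : ℕ, 3 ≤ n → maxRatio n = (((n + 1) / 2 : ℕ) : ℝ) / (2 * n) := by
    intro n hn
    apply IsGreatest.csSup_eq
    constructor
    · have hconn := friend_conn (n := n) (by omega)
      have hE : (friend n).edgeSet.Nonempty := by
        refine ⟨s(⟨0, by omega⟩, ⟨1, by omega⟩), ?_⟩
        exact ⟨fun h => by simpa using congrArg Fin.val h, Or.inl rfl⟩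
      refine ⟨friend n, hconn, hE, ?_⟩
      obtain ⟨h1, h2⟩ := tau'_le (friend n) hconn
      have h3 := friend_lower hn h2
      have h4 : tau' (friend n) = (n + 1) / 2 := le_antisymm h1 h3
      have h5 : tau (friend n) = 2 := by
        have h6 : tau (friend n) ≤ 2 := Nat.sInf_le (friend_edge (by omega))
        have h7 : EdgeTreePartition (friend n) (tau (friend n)) :=
          Nat.sInf_mem (s := {k | EdgeTreePartition (friend n) k}) ⟨2, friend_edge (by omega)⟩
        have h8 : tau (friend n) = 0 ∨ tau (friend n) = 1 ∨ tau (friend n) = 2 := by omega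
        rcases h8 with h8 | h8 | h8
        · exfalso
          rw [h8] at h7
          obtain ⟨H, -, h9⟩ := h7
          obtain ⟨e, he⟩ := hE
          obtain ⟨i, -⟩ := h9 e he
          exact i.elim0
        · exfalso
          rw [h8] at h7
          have htree := isTree_of_one _ hconn hE h7
          have h9 := htree.isAcyclic.cliqueFree le_rfl
            {(⟨0, by omega⟩ : Fin n), ⟨1, by omega⟩, ⟨2, by omega⟩}
          apply h9
          rw [SimpleGraph.is3Clique_triple_iff]
          refine ⟨?_, ?_, ?_⟩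
          · exact ⟨fun h => by simpa using congrArg Fin.val h, Or.inl rfl⟩
          · exact ⟨fun h => by simpa using congrArg Fin.val h, Or.inl rfl⟩
          · exact ⟨fun h => by simpa using congrArg Fin.val h, Or.inr (Or.inr (by norm_num))⟩
        · exact h8
      rw [h4, h5]
      norm_num
    · rintro y ⟨G, hG, hE, rfl⟩
      exact ratio_le hn G hG hE
  refine ⟨hmain, ?_⟩
  apply Tendsto.limsup_eq
  have hlow : Tendsto (fun _ : ℕ => (1 / 4 : ℝ)) atTop (𝓝 (1 / 4)) := tendsto_const_nhds
  have hup : Tendsto (fun n : ℕ => (1 / 4 : ℝ) + 1 / (4 * (n : ℝ))) atTop (𝓝 (1 / 4)) := by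
    have h1 : Tendsto (fun n : ℕ => (1 / 4 : ℝ) * (1 / (n : ℝ))) atTop (𝓝 (1 / 4 * 0)) :=
      (tendsto_one_div_atTop_nhds_zero_nat).const_mul _
    have h2 := (tendsto_const_nhds (x := (1 / 4 : ℝ)) (f := (atTop : Filter ℕ))).add h1
    rw [mul_zero, add_zero] at h2
    refine h2.congr fun n => ?_
    ring
  refine tendsto_of_tendsto_of_tendsto_of_le_of_le' hlow hup ?_ ?_
  · filter_upwards [eventually_ge_atTop 3] with n hn
    rw [hmain n hn]
    have hn0 : (0 : ℝ) < n := by
      have : 0 < n := by omega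
      exact_mod_cast this
    rw [div_le_div_iff₀ (by norm_num) (by positivity)]
    have h1 : n ≤ 2 * ((n + 1) / 2) := by omega
    have h2 : (n : ℝ) ≤ 2 * (((n + 1) / 2 : ℕ) : ℝ) := by exact_mod_cast h1
    linarith
  · filter_upwards [eventually_ge_atTop 3] with n hn
    rw [hmain n hn]
    have hn0 : (0 : ℝ) < n := by
      have : 0 < n := by omega
      exact_mod_cast this
    have h1 : 2 * ((n + 1) / 2) ≤ n + 1 := by omega
    have h2 : 2 * (((n + 1) / 2 : ℕ) : ℝ) ≤ n + 1 := by exact_mod_cast h1
    have h3 : (1 / 4 : ℝ) + 1 / (4 * (n : ℝ)) = (n + 1) / (4 * n) := by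
      field_simp
    rw [h3, div_le_div_iff₀ (by positivity) (by positivity)]
    nlinarith

end Pool.Agent.Results.MP_8bd6c4_co.TreePartitionRatio
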